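import Mathlib
import Pool.Agent.H337R3.Sid2

set_option autoImplicit false

/-! Subgaussian sets of characters on `(ℤ/m)^ℕ`. -/

open MeasureTheory

noncomputable section

namespace Pool.Agent.X153.SG

variable {m : ℕ}

/-- The character `t ↦ exp (2 π i ∑ₖ tₖ nₖ / m)` of `(ℤ/m)^ℕ`. -/
def chr [NeZero m] (n : ℕ →₀ ZMod m) (t : ℕ → ZMod m) : ℂ :=
  ZMod.stdAddChar (n.sum fun k a => t k * a)

/-- The `ψ₂` norm. -/
def psi2 (μ : Measure (ℕ → ZMod m)) (f : (ℕ → ZMod m) → ℂ) : ℝ :=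
  sInf {c : ℝ | 0 < c ∧ ∫ t, Real.exp (‖f t‖ ^ 2 / c ^ 2) ∂μ ≤ Real.exp 1}

/-- Subgaussian sets of characters. -/
def Subgaussian [NeZero m] (μ : Measure (ℕ → ZMod m)) (Λ : Set (ℕ →₀ ZMod m)) : Prop :=
  ∃ C : ℝ, ∀ (A : Finset (ℕ →₀ ZMod m)) (a : (ℕ →₀ ZMod m) → ℂ), (A : Set (ℕ →₀ ZMod m)) ⊆ Λ →
    psi2 μ (fun t => ∑ n ∈ A, a n * chr n t) ≤ C * √(∑ n ∈ A, ‖a n‖ ^ 2)

section
variable [NeZero m]

lemma chr_zero (t : ℕ → ZMod m) : chr (0 : ℕ →₀ ZMod m) t = 1 := by
  simp [chr]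

lemma chr_add (n n' : ℕ →₀ ZMod m) (t : ℕ → ZMod m) : chr (n + n') t = chr n t * chr n' t := by
  unfold chr
  rw [Finsupp.sum_add_index', AddChar.map_add_eq_mul]
  · intro a; simp
  · intro a b c; ring

lemma chr_add_right (n : ℕ →₀ ZMod m) (s t : ℕ → ZMod m) :
    chr n (s + t) = chr n s * chr n t := by
  unfold chr
  rw [← AddChar.map_add_eq_mul]
  congr 1
  simp only [Finsupp.sum, Pi.add_apply, add_mul]
  rw [Finset.sum_add_distrib]

lemma chr_norm (n : ℕ →₀ ZMod m) (t : ℕ → ZMod m) : ‖chr n t‖ = 1 := by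
  unfold chr
  exact AddChar.norm_apply _ _

lemma chr_meas (n : ℕ →₀ ZMod m) : Measurable (chr (m := m) n) := by
  unfold chr
  refine measurable_from_top.comp ?_
  unfold Finsupp.sum
  refine Finset.measurable_sum _ fun k _ => ?_
  exact (measurable_from_top (f := fun x : ZMod m => x * n k)).comp (measurable_pi_apply k)


open Pool.Agent.H337R3.Sid

lemma exp_zero_smul (x : ℕ →₀ ZMod m) : m • x = 0 := by
  ext k
  simp

/-- The annihilator of `X` has measure at least `1 / |⟨X⟩|`. -/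
theorem card_bound (μ : Measure (ℕ → ZMod m)) [μ.IsAddHaarMeasure] [IsProbabilityMeasure μ]
    (X : Finset (ℕ →₀ ZMod m)) :
    1 ≤ (Nat.card (AddSubgroup.closure (X : Set (ℕ →₀ ZMod m))) : ℝ) *
      μ.real {t | ∀ n ∈ X, chr n t = 1} := by
  classical
  set M := AddSubgroup.closure (X : Set (ℕ →₀ ZMod m)) with hM
  have hMfin : Finite M := closure_finite m (NeZero.pos m) X (fun x _ => exp_zero_smul x)
  let _ := Fintype.ofFinite M
  set H : Set (ℕ → ZMod m) := {t | ∀ n ∈ X, chr n t = 1} with hH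
  let F : AddChar M ℂ → Set (ℕ → ZMod m) := fun ψ => {t | ∀ n : M, chr (n : ℕ →₀ ZMod m) t = ψ n}
  have hF : ∀ ψ, μ (F ψ) ≤ μ H := by
    intro ψ
    by_cases hne : (F ψ).Nonempty
    swap
    · rw [Set.not_nonempty_iff_eq_empty] at hne
      rw [hne]
      simp
    obtain ⟨t0, ht0⟩ := hne
    have hsub : F ψ ⊆ (fun t => t + (-t0)) ⁻¹' H := by
      intro t ht n hn
      have hnM : n ∈ M := AddSubgroup.subset_closure hn
      have e1 : chr n t = ψ ⟨n, hnM⟩ := ht ⟨n, hnM⟩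
      have e2 : chr n t0 = ψ ⟨n, hnM⟩ := ht0 ⟨n, hnM⟩
      have e3 : chr n t = chr n (t + (-t0)) * chr n t0 := by
        rw [← chr_add_right]
        congr 1
        abel
      have h0 : chr n t0 ≠ 0 := by
        intro h
        have := chr_norm n t0
        rw [h, norm_zero] at this
        exact zero_ne_one this
      rw [e1, ← e2] at e3
      exact (mul_right_cancel₀ h0 (by rw [one_mul]; exact e3)).symm
    calc μ (F ψ) ≤ μ ((fun t => t + (-t0)) ⁻¹' H) := measure_mono hsub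
      _ = μ H := measure_preimage_add_right μ (-t0) H
  have hcov : (Set.univ : Set (ℕ → ZMod m)) ⊆ ⋃ ψ, F ψ := by
    intro t _
    let ψ : AddChar M ℂ :=
      { toFun := fun n => chr (n : ℕ →₀ ZMod m) t
        map_zero_eq_one' := by simp [chr_zero]
        map_add_eq_mul' := fun a b => by
          simp only [AddSubgroup.coe_add]
          exact chr_add _ _ _ }
    exact Set.mem_iUnion.2 ⟨ψ, fun n => rfl⟩
  have h1 : (1 : ENNReal) ≤ (Nat.card M : ENNReal) * μ H := by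
    calc (1 : ENNReal) = μ Set.univ := measure_univ.symm
      _ ≤ μ (⋃ ψ, F ψ) := measure_mono hcov
      _ ≤ ∑ ψ, μ (F ψ) := measure_iUnion_fintype_le _ _
      _ ≤ ∑ _ψ : AddChar M ℂ, μ H := Finset.sum_le_sum fun ψ _ => hF ψ
      _ = (Nat.card M : ENNReal) * μ H := by
        rw [Finset.sum_const, Finset.card_univ, AddChar.card_eq, Nat.card_eq_fintype_card,
          nsmul_eq_mul]
  have h2 := (ENNReal.toReal_le_toReal (by simp) (by finiteness)).2 h1
  rw [ENNReal.toReal_one, ENNReal.toReal_mul, ENNReal.toReal_natCast] at h2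
  exact h2

theorem small (μ : Measure (ℕ → ZMod m)) [μ.IsAddHaarMeasure] [IsProbabilityMeasure μ]
    (Λ : Set (ℕ →₀ ZMod m)) (h0 : 0 ∉ Λ) (hΛ : Subgaussian μ Λ) : ∃ K : ℕ, Small K Λ := by
  classical
  obtain ⟨C, hC⟩ := hΛ
  set C' := max C 1 with hC'
  have hC'1 : 1 ≤ C' := le_max_right _ _
  have hC'0 : 0 < C' := by linarith
  refine ⟨⌈12 * C' ^ 2⌉₊, ?_⟩
  intro A hA
  set N := Nat.card (AddSubgroup.closure (A : Set (ℕ →₀ ZMod m))) with hN
  have hMfin : Finite (AddSubgroup.closure (A : Set (ℕ →₀ ZMod m))) :=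
    closure_finite m (NeZero.pos m) A (fun x _ => exp_zero_smul x)
  by_cases hAe : A.Nonempty
  swap
  · rw [Finset.not_nonempty_iff_eq_empty] at hAe
    rw [hAe, Finset.card_empty, pow_zero]
    exact Nat.one_le_pow _ _ Nat.card_pos
  have hAcard : 0 < A.card := Finset.card_pos.mpr hAe
  have hAc : (1 : ℝ) ≤ A.card := by exact_mod_cast hAcard
  have hN2 : 2 ≤ N := by
    obtain ⟨x, hx⟩ := hAe
    have hx0 : x ≠ 0 := by
      rintro rfl
      exact h0 (hA hx)
    have : Nontrivial (AddSubgroup.closure (A : Set (ℕ →₀ ZMod m))) :=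
      ⟨⟨⟨x, AddSubgroup.subset_closure hx⟩, 0, fun h => hx0 (by
        have := congrArg Subtype.val h
        simpa using this)⟩⟩
    exact Finite.one_lt_card
  -- the function
  set f : (ℕ → ZMod m) → ℂ := fun t => ∑ n ∈ A, (1 : ℂ) * chr n t with hf
  have hfb : ∀ t, ‖f t‖ ≤ A.card := by
    intro t
    calc ‖f t‖ ≤ ∑ n ∈ A, ‖(1 : ℂ) * chr n t‖ := norm_sum_le _ _
      _ = A.card := by simp [chr_norm]
  have hfm : Measurable f := by
    refine Finset.measurable_sum _ fun n _ => ?_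
    exact (chr_meas n).const_mul _
  have hint : ∀ c : ℝ, Integrable (fun t => Real.exp (‖f t‖ ^ 2 / c ^ 2)) μ := by
    intro c
    refine Integrable.of_bound (C := Real.exp ((A.card : ℝ) ^ 2 / c ^ 2)) ?_ ?_
    · exact (Real.measurable_exp.comp ((hfm.norm.pow_const 2).div_const _)).aestronglyMeasurable
    · refine Filter.Eventually.of_forall fun t => ?_
      rw [Real.norm_eq_abs, abs_of_pos (Real.exp_pos _)]
      apply Real.exp_le_exp.2
      apply div_le_div_of_nonneg_right _ (sq_nonneg _)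
      exact pow_le_pow_left₀ (norm_nonneg _) (hfb t) 2
  have h1 := hC A (fun _ => 1) hA
  have hsum : ∑ n ∈ A, ‖(1 : ℂ)‖ ^ 2 = A.card := by simp
  rw [hsum] at h1
  have hlt : psi2 μ f < 2 * C' * √A.card := by
    have h2 : 0 < √(A.card : ℝ) := Real.sqrt_pos.2 (by linarith)
    have h3 : C * √(A.card : ℝ) ≤ C' * √(A.card : ℝ) :=
      mul_le_mul_of_nonneg_right (le_max_left _ _) h2.le
    have h4 : 0 < C' * √(A.card : ℝ) := mul_pos hC'0 h2
    have h5 : psi2 μ f ≤ C * √(A.card : ℝ) := h1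
    linarith
  have hne : {c : ℝ | 0 < c ∧ ∫ t, Real.exp (‖f t‖ ^ 2 / c ^ 2) ∂μ ≤ Real.exp 1}.Nonempty := by
    refine ⟨A.card, by linarith, ?_⟩
    calc ∫ t, Real.exp (‖f t‖ ^ 2 / (A.card : ℝ) ^ 2) ∂μ ≤ ∫ _t, Real.exp 1 ∂μ := by
          refine integral_mono (hint _) (integrable_const _) fun t => ?_
          apply Real.exp_le_exp.2
          rw [div_le_one (by positivity)]
          exact pow_le_pow_left₀ (norm_nonneg _) (hfb t) 2
      _ = Real.exp 1 := by simp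
  obtain ⟨c, ⟨hc0, hc⟩, hc2⟩ := exists_lt_of_csInf_lt hne hlt
  -- Markov
  have hmark : Real.exp ((A.card : ℝ) ^ 2 / c ^ 2) * μ.real {t | ∀ n ∈ A, chr n t = 1} ≤
      Real.exp 1 := by
    have h6 := mul_meas_ge_le_integral_of_nonneg (μ := μ)
      (f := fun t => Real.exp (‖f t‖ ^ 2 / c ^ 2)) (Filter.Eventually.of_forall fun t =>
        (Real.exp_pos _).le) (hint c) (Real.exp ((A.card : ℝ) ^ 2 / c ^ 2))
    refine le_trans ?_ (h6.trans hc)
    apply mul_le_mul_of_nonneg_left _ (Real.exp_pos _).le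
    apply measureReal_mono
    · intro t ht
      simp only [Set.mem_setOf_eq]
      have : f t = A.card := by
        rw [hf]
        simp only [one_mul]
        rw [Finset.sum_congr rfl (fun n hn => ht n hn)]
        simp
      rw [this, Complex.norm_natCast]
    · finiteness
  have hcb := card_bound μ A
  rw [← hN] at hcb
  have hNpos : (0 : ℝ) < N := by exact_mod_cast (by omega : 0 < N)
  -- exponential lower bound
  have hkey : Real.exp ((A.card : ℝ) / (4 * C' ^ 2)) ≤ Real.exp 1 * N := by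
    have h7 : (A.card : ℝ) / (4 * C' ^ 2) ≤ (A.card : ℝ) ^ 2 / c ^ 2 := by
      rw [div_le_div_iff₀ (by positivity) (by positivity)]
      have h8 : c ^ 2 ≤ 4 * C' ^ 2 * A.card := by
        calc c ^ 2 ≤ (2 * C' * √A.card) ^ 2 := pow_le_pow_left₀ hc0.le hc2.le 2
          _ = 4 * C' ^ 2 * A.card := by
            rw [mul_pow, Real.sq_sqrt (by positivity)]
            ring
      nlinarith
    calc Real.exp ((A.card : ℝ) / (4 * C' ^ 2)) ≤ Real.exp ((A.card : ℝ) ^ 2 / c ^ 2) :=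
          Real.exp_le_exp.2 h7
      _ = Real.exp ((A.card : ℝ) ^ 2 / c ^ 2) * 1 := (mul_one _).symm
      _ ≤ Real.exp ((A.card : ℝ) ^ 2 / c ^ 2) * (N * μ.real {t | ∀ n ∈ A, chr n t = 1}) :=
          mul_le_mul_of_nonneg_left hcb (Real.exp_pos _).le
      _ = (Real.exp ((A.card : ℝ) ^ 2 / c ^ 2) * μ.real {t | ∀ n ∈ A, chr n t = 1}) * N := by ring
      _ ≤ Real.exp 1 * N := mul_le_mul_of_nonneg_right hmark hNpos.le
  have hlog : (A.card : ℝ) / (4 * C' ^ 2) ≤ 1 + Real.log N := by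
    have := Real.log_le_log (Real.exp_pos _) hkey
    rwa [Real.log_exp, Real.log_mul (Real.exp_pos _).ne' hNpos.ne', Real.log_exp] at this
  have hlog2 : (1 / 2 : ℝ) ≤ Real.log 2 := by
    have := Real.log_two_gt_d9
    linarith
  have hlog2' : Real.log 2 ≤ 1 := by
    have := Real.log_two_lt_d9
    linarith
  have hlogN2 : Real.log 2 ≤ Real.log N := Real.log_le_log (by norm_num) (by exact_mod_cast hN2)
  have h9 : (A.card : ℝ) ≤ 12 * C' ^ 2 * Real.log N := by
    have h10 : (A.card : ℝ) / (4 * C' ^ 2) ≤ 3 * Real.log N := by linarith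
    rw [div_le_iff₀ (by positivity)] at h10
    linarith
  have h5 : (A.card : ℝ) * Real.log 2 ≤ (⌈12 * C' ^ 2⌉₊ : ℝ) * Real.log N := by
    calc (A.card : ℝ) * Real.log 2 ≤ A.card * 1 := mul_le_mul_of_nonneg_left hlog2' (by positivity)
      _ ≤ 12 * C' ^ 2 * Real.log N := by rw [mul_one]; exact h9
      _ ≤ _ := mul_le_mul_of_nonneg_right (Nat.le_ceil _) (by linarith)
  have h6 : Real.log ((2 : ℝ) ^ A.card) ≤ Real.log ((N : ℝ) ^ ⌈12 * C' ^ 2⌉₊) := by
    rw [Real.log_pow, Real.log_pow]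
    exact h5
  have h7 : ((2 : ℝ) ^ A.card) ≤ ((N : ℝ) ^ ⌈12 * C' ^ 2⌉₊) :=
    (Real.log_le_log_iff (by positivity) (by positivity)).1 h6
  exact_mod_cast h7

theorem main (μ : Measure (ℕ → ZMod m)) [μ.IsAddHaarMeasure] [IsProbabilityMeasure μ]
    (Λ : Set (ℕ →₀ ZMod m)) (h0 : 0 ∉ Λ) (hΛ : Subgaussian μ Λ) :
    ∃ (k : ℕ) (Q : Fin k → Set (ℕ →₀ ZMod m)), (∀ i, QI (Q i)) ∧ Λ = ⋃ i, Q i := by
  obtain ⟨K, hK⟩ := small μ Λ h0 hΛ
  obtain ⟨Q, hQ, hΛ'⟩ := finite_union m.primeFactorsList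
    (fun q hq => Nat.prime_of_mem_primeFactorsList hq) K Λ
    (by rw [Nat.prod_primeFactorsList (NeZero.ne m)]; exact fun x _ => exp_zero_smul x) hK
  exact ⟨_, Q, hQ, hΛ'⟩

end

end Pool.Agent.X153.SG
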